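import Pool.Agent.Helper8.TNG.Stmts

/-! Rows PRP and LEX of the sheet TNG (helper60). -/

namespace Pool.Agent.Helper8.TNG

theorem PRP_pass {α : Type} (lt : α → α → Bool) :
    ∀ (w : List α) (c : α), (pass lt c w).Perm (c :: w)
  | [], c => by simp [pass]
  | p :: w, c => by
    unfold pass
    split_ifs
    · exact (PRP_pass lt w p).cons c
    · exact ((PRP_pass lt w c).cons p).trans (List.Perm.swap c p w)

/-- Row PRP. -/
theorem st_PRP : ST_PRP := by
  intro α lt w
  cases w with
  | nil => simp [promW]
  | cons c w => exact PRP_pass lt w c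

theorem LEX_len {P : Type} [Fintype P] [DecidableEq P] {w : List P} (hn : w.Nodup)
    (hc : ∀ p, p ∈ w) : w.length = Fintype.card P := by
  have h : w.toFinset = Finset.univ := by
    ext p
    simp [hc p]
  rw [← List.toFinset_card_of_nodup hn, h, Finset.card_univ]

/-- Row LEX. -/
theorem st_LEX : ST_LEX := by
  intro P _ _ _ lt hlt w hn hc
  have hlen := LEX_len hn hc
  constructor
  · intro hL u v huv _ p hp q hq
    by_contra hne
    have ht : lt p q = true := by simpa using hne
    have h1 := hL p q ((hlt p q).1 ht)
    unfold lab at h1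
    have h2 : w.idxOf q < u.length := by
      rw [huv, List.idxOf_append_of_mem hq]
      exact List.idxOf_lt_length_of_mem hq
    have hpu : p ∉ u := by
      intro hpu
      rw [huv] at hn
      exact (List.nodup_append.1 hn).2.2 p hpu p hp rfl
    have h3 : u.length ≤ w.idxOf p := by
      rw [huv, List.idxOf_append_of_notMem hpu]
      omega
    omega
  · intro hS p q hpq
    have hne : p ≠ q := ne_of_lt hpq
    unfold lab
    by_contra hcon
    have hle : w.idxOf q ≤ w.idxOf p := by omega
    have hidx : w.idxOf q ≠ w.idxOf p := by
      intro h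
      exact hne ((List.idxOf_inj (hc q)).1 h).symm
    have hlt' : w.idxOf q < w.idxOf p := lt_of_le_of_ne hle hidx
    have hpl : w.idxOf p < w.length := List.idxOf_lt_length_of_mem (hc p)
    have hql : w.idxOf q < w.length := List.idxOf_lt_length_of_mem (hc q)
    have h := hS (w.take (w.idxOf p)) (w.drop (w.idxOf p)) (List.take_append_drop _ _).symm
      (by rw [List.length_drop]; omega) p
      (by
        rw [List.mem_drop_iff_getElem]
        refine ⟨0, by simpa using hpl, ?_⟩
        simp) q
      (by
        rw [List.mem_take_iff_getElem]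
        refine ⟨w.idxOf q, by simp; omega, ?_⟩
        simp)
    have h' := (hlt p q).2 hpq
    rw [h] at h'
    exact Bool.noConfusion h'

end Pool.Agent.Helper8.TNG
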