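import Pool.Agent.Helper60.TNG.LEX

/-! Row LOW of the sheet TNG (helper60). -/

namespace Pool.Agent.Helper8.TNG

open Finset

theorem LOW_lab_inj {P : Type} [Fintype P] [DecidableEq P] {w w' : List P} (hn : w.Nodup)
    (hc : ∀ p, p ∈ w) (hn' : w'.Nodup) (hc' : ∀ p, p ∈ w') (h : lab w = lab w') : w = w' := by
  have hl := LEX_len hn hc
  have hl' := LEX_len hn' hc'
  refine List.ext_getElem (by rw [hl, hl']) ?_
  intro i hi hi'
  have h1 : w.idxOf w[i] = i := List.Nodup.idxOf_getElem hn i hi
  have h2 : w'.idxOf w[i] = i := by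
    have := congrFun h w[i]
    unfold lab at this
    omega
  have h3 : w'.idxOf w[i] < w'.length := List.idxOf_lt_length_of_mem (hc' _)
  have h4 : w'[w'.idxOf w[i]]'h3 = w[i] := List.getElem_idxOf h3
  rw [← h4]
  simp only [h2]

theorem LOW_fin (P : Type) [Fintype P] [PartialOrder P] :
    Set.Finite {L : P → ℕ | IsLabeling L ∧ Tangled L} := by
  classical
  refine Set.Finite.subset
    (Set.Finite.pi (t := fun _ : P => Set.Icc 1 (Fintype.card P)) (fun _ => Set.finite_Icc _ _)) ?_
  intro L hL
  rw [Set.mem_pi]
  intro p _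
  exact hL.1.mapsTo (Set.mem_univ p)

/-- Row LOW. -/
theorem st_LOW (h1 : ST_WC) (h2 : ST_TGL) : ST_LOW := by
  classical
  intro P _ _ _ lt hlt x y hxy hx hy
  have key : ∀ u l : P, IsMin u → u ≠ l →
      ∀ w ∈ (Wd (Finset.univ \ {u, l})).filter (fun w => lt u (outc lt (state lt w) l) = true),
        (w ++ [l, u]).Nodup ∧ (∀ p, p ∈ w ++ [l, u]) ∧
          IsLabeling (lab (w ++ [l, u])) ∧ Tangled (lab (w ++ [l, u])) := by
    intro u l hu hul w hw
    rw [Finset.mem_filter] at hw
    obtain ⟨hnd, hmem⟩ := ((h1 P (Finset.univ \ {u, l})).1 w).1 hw.1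
    have hN : (w ++ [l, u]).Nodup := by
      rw [List.nodup_append]
      refine ⟨hnd, by simp [hul.symm], ?_⟩
      intro a ha b hb hab
      subst hab
      have h3 := (hmem a).1 ha
      simp only [Finset.mem_sdiff, Finset.mem_univ, true_and, Finset.mem_insert,
        Finset.mem_singleton, not_or] at h3
      simp only [List.mem_cons, List.not_mem_nil, or_false] at hb
      rcases hb with hb | hb
      · exact h3.2 hb
      · exact h3.1 hb
    have hM : ∀ p, p ∈ w ++ [l, u] := by
      intro p
      by_cases hp : p = u ∨ p = l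
      · rcases hp with hp | hp <;> simp [hp]
      · rw [List.mem_append]
        left
        rw [hmem p]
        simp only [Finset.mem_sdiff, Finset.mem_univ, true_and, Finset.mem_insert,
          Finset.mem_singleton]
        exact hp
    exact ⟨hN, hM, h2 P lt hlt w l u hN hM hu ((hlt _ _).1 hw.2)⟩
  set T : P → P → Finset (List P) := fun u l =>
    ((Wd (Finset.univ \ {u, l})).filter
      (fun w => lt u (outc lt (state lt w) l) = true)).image (fun w => w ++ [l, u]) with hT
  have hTcard : ∀ u l : P, (T u l).card = ((Wd (Finset.univ \ {u, l})).filter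
      (fun w => lt u (outc lt (state lt w) l) = true)).card := by
    intro u l
    rw [hT]
    refine Finset.card_image_of_injective _ ?_
    intro a b hab
    exact List.append_cancel_right hab
  have hpr : ∀ u l : P, u ≠ l → ((Fintype.card P - 2).factorial : ℝ) *
      pr (Finset.univ \ {u, l}) (fun w => lt u (outc lt (state lt w) l) = true) =
        ((T u l).card : ℝ) := by
    intro u l hul
    have hcard : (Finset.univ \ {u, l} : Finset P).card = Fintype.card P - 2 := by
      rw [Finset.card_sdiff_of_subset (Finset.subset_univ _), Finset.card_univ,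
        Finset.card_pair hul]
    rw [hTcard u l]
    unfold pr
    rw [hcard]
    have hpos : ((Fintype.card P - 2).factorial : ℝ) ≠ 0 := by
      exact_mod_cast (Nat.factorial_pos _).ne'
    rw [mul_div_cancel₀ _ hpos]
    congr!
  have hdisj1 : ∀ u u' l l' : P, (u, l) ≠ (u', l') → Disjoint (T u l) (T u' l') := by
    intro u u' l l' hne
    rw [Finset.disjoint_left]
    intro a ha ha'
    rw [hT] at ha ha'
    simp only [Finset.mem_image] at ha ha'
    obtain ⟨w, _, rfl⟩ := ha
    obtain ⟨w', _, hw'⟩ := ha'
    apply hne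
    have h3 := List.append_inj_right' hw' rfl
    simp only [List.cons.injEq, and_true] at h3
    rw [h3.1, h3.2]
  set I : Finset P := Finset.univ \ {x, y} with hI
  have hIx : ∀ l ∈ I, x ≠ l := by
    intro l hl
    rw [hI] at hl
    simp only [Finset.mem_sdiff, Finset.mem_univ, true_and, Finset.mem_insert,
      Finset.mem_singleton, not_or] at hl
    exact fun h => hl.1 h.symm
  have hIy : ∀ l ∈ I, y ≠ l := by
    intro l hl
    rw [hI] at hl
    simp only [Finset.mem_sdiff, Finset.mem_univ, true_and, Finset.mem_insert,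
      Finset.mem_singleton, not_or] at hl
    exact fun h => hl.2 h.symm
  set A : Finset (List P) := I.biUnion (fun l => T x l ∪ T y l) with hA
  have hAcard : A.card = ∑ l ∈ I, ((T x l).card + (T y l).card) := by
    rw [hA, Finset.card_biUnion]
    · refine Finset.sum_congr rfl ?_
      intro l _
      rw [Finset.card_union_of_disjoint]
      exact hdisj1 _ _ _ _ (by intro h; exact hxy (Prod.mk.inj h).1)
    · intro l _ l' _ hll
      change Disjoint (T x l ∪ T y l) (T x l' ∪ T y l')
      rw [Finset.disjoint_union_left, Finset.disjoint_union_right, Finset.disjoint_union_right]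
      refine ⟨⟨?_, ?_⟩, ?_, ?_⟩ <;>
        exact hdisj1 _ _ _ _ (by intro h; exact hll (Prod.mk.inj h).2)
  have hAprop : ∀ v ∈ A, v.Nodup ∧ (∀ p, p ∈ v) ∧ IsLabeling (lab v) ∧ Tangled (lab v) := by
    intro v hv
    rw [hA, Finset.mem_biUnion] at hv
    obtain ⟨l, hl, hv⟩ := hv
    rw [Finset.mem_union] at hv
    rcases hv with hv | hv
    · rw [hT] at hv
      simp only [Finset.mem_image] at hv
      obtain ⟨w, hw, rfl⟩ := hv
      exact key x l hx (hIx l hl) w hw
    · rw [hT] at hv
      simp only [Finset.mem_image] at hv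
      obtain ⟨w, hw, rfl⟩ := hv
      exact key y l hy (hIy l hl) w hw
  have hAle : A.card ≤ numTangled P := by
    have hinj : Set.InjOn (lab : List P → P → ℕ) (A : Set (List P)) := by
      intro a ha b hb hab
      have pa := hAprop a ha
      have pb := hAprop b hb
      exact LOW_lab_inj pa.1 pa.2.1 pb.1 pb.2.1 hab
    rw [← Set.ncard_coe_finset, ← Set.InjOn.ncard_image hinj]
    unfold numTangled
    refine Set.ncard_le_ncard ?_ (LOW_fin P)
    rintro _ ⟨v, hv, rfl⟩
    exact (hAprop v hv).2.2
  calc ((Fintype.card P - 2).factorial : ℝ) * ∑ l ∈ I,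
      (pr (Finset.univ \ {x, l}) (fun w => lt x (outc lt (state lt w) l) = true) +
        pr (Finset.univ \ {y, l}) (fun w => lt y (outc lt (state lt w) l) = true))
      = ∑ l ∈ I, (((T x l).card : ℝ) + ((T y l).card : ℝ)) := by
        rw [Finset.mul_sum]
        refine Finset.sum_congr rfl ?_
        intro l hl
        rw [mul_add, hpr x l (hIx l hl), hpr y l (hIy l hl)]
    _ = (A.card : ℝ) := by
        rw [hAcard]
        push_cast
        rfl
    _ ≤ (numTangled P : ℝ) := by exact_mod_cast hAle

end Pool.Agent.Helper8.TNG
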