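import Pool.Agent.Helper8.TNG.Stmts

/-! Row PB of the sheet TNG (helper60). -/

namespace Pool.Agent.Helper8.TNG

open Finset

/-- Row PB. -/
theorem st_PB (h1 : ST_WC) : ST_PB := by
  classical
  intro α _ S Q R
  have hc : (Wd S).card = S.card.factorial := (h1 α S).2
  have hpos : (0 : ℝ) < (S.card.factorial : ℝ) := by exact_mod_cast S.card.factorial_pos
  have hmono : ∀ (A B : List α → Prop), (∀ w ∈ Wd S, A w → B w) → pr S A ≤ pr S B := by
    intro A B hAB
    unfold pr
    refine div_le_div_of_nonneg_right ?_ hpos.le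
    have : ((Wd S).filter A).card ≤ ((Wd S).filter B).card := by
      refine Finset.card_le_card ?_
      intro w hw
      rw [Finset.mem_filter] at hw ⊢
      exact ⟨hw.1, hAB w hw.1 hw.2⟩
    convert (Nat.cast_le (α := ℝ)).2 this
  have hone : ∀ (A : List α → Prop), (∀ w ∈ Wd S, A w) → pr S A = 1 := by
    intro A hA
    unfold pr
    have : ((Wd S).filter A).card = (Wd S).card := by
      rw [Finset.filter_true_of_mem hA]
    rw [div_eq_one_iff_eq hpos.ne']
    rw [hc] at this
    convert congrArg (Nat.cast (R := ℝ)) this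
  have hadd : ∀ (A B : List α → Prop), (∀ w ∈ Wd S, A w → ¬ B w) →
      pr S (fun w => A w ∨ B w) = pr S A + pr S B := by
    intro A B hAB
    unfold pr
    rw [← add_div]
    congr 1
    have : ((Wd S).filter (fun w => A w ∨ B w)).card =
        ((Wd S).filter A).card + ((Wd S).filter B).card := by
      rw [Finset.filter_or, Finset.card_union_of_disjoint]
      rw [Finset.disjoint_left]
      intro w hw hw'
      rw [Finset.mem_filter] at hw hw'
      exact hAB w hw.1 hw.2 hw'.2
    have h2 := congrArg (Nat.cast (R := ℝ)) this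
    push_cast at h2
    convert h2
  have hnn : ∀ (A : List α → Prop), 0 ≤ pr S A := by
    intro A
    unfold pr
    positivity
  have hle : ∀ (A : List α → Prop), pr S A ≤ 1 := by
    intro A
    calc pr S A ≤ pr S (fun _ => True) := hmono _ _ (fun _ _ _ => trivial)
      _ = 1 := hone _ (fun _ _ => trivial)
  refine ⟨hnn Q, hle Q, hmono Q R, ?_, hone Q, ?_, ?_, hadd Q R⟩
  · intro h
    exact le_antisymm (hmono _ _ (fun w hw => (h w hw).1)) (hmono _ _ (fun w hw => (h w hw).2))
  · have h2 : pr S (fun w => Q w ∨ R w) = pr S Q + pr S (fun w => R w ∧ ¬ Q w) := by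
      rw [← hadd Q (fun w => R w ∧ ¬ Q w) (fun w _ hq hr => hr.2 hq)]
      refine le_antisymm (hmono _ _ ?_) (hmono _ _ ?_)
      · intro w _ hw
        by_cases hq : Q w
        · exact Or.inl hq
        · rcases hw with hw | hw
          · exact Or.inl hw
          · exact Or.inr ⟨hw, hq⟩
      · intro w _ hw
        rcases hw with hw | hw
        · exact Or.inl hw
        · exact Or.inr hw.1
    rw [h2]
    have h3 : pr S (fun w => R w ∧ ¬ Q w) ≤ pr S R := hmono _ _ (fun w _ hw => hw.1)
    linarith
  · have h2 : pr S (fun w => Q w ∨ ¬ Q w) = pr S Q + pr S (fun w => ¬ Q w) :=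
      hadd Q (fun w => ¬ Q w) (fun w _ hq hr => hr hq)
    have h3 : pr S (fun w => Q w ∨ ¬ Q w) = 1 := hone _ (fun w _ => Classical.em _)
    linarith

end Pool.Agent.Helper8.TNG
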